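import Pool.Agent.TBP.StmtsA

set_option autoImplicit false

/-! # TBP, row EPB (the Euler product bound). -/

namespace Pool.Agent.TBP.H86

open Finset
open Pool.Agent.Common_Sieve Pool.Agent.Helper46_MNO

theorem epb (heul : EulStmt) (hloc : LocStmt) (hepa : EpaStmt) (hvdb : VdbStmt) : EpbStmt := by
  obtain ⟨C, hC1, hC⟩ := hepa
  refine ⟨C, hC1, ?_⟩
  intro θ a J j N k hθ0 hθ1 ha hJ hj hN hk
  have hhh : ∀ p, 1 ≤ hh θ J p := (hvdb θ J hθ0 hθ1).2.2.1
  have hrho : 0 ≤ rho := by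
    unfold rho
    exact div_nonneg zero_le_one (Real.log_nonneg (by norm_num))
  set u : ℕ → ℕ → ℝ := fun p b => hh θ J p * (((b : ℝ) + 1) ^ rho - (b : ℝ) ^ rho) / (p : ℝ) ^ b
    with hu
  have hdiff : ∀ b : ℕ, 0 ≤ ((b : ℝ) + 1) ^ rho - (b : ℝ) ^ rho := by
    intro b
    have : (b : ℝ) ^ rho ≤ ((b : ℝ) + 1) ^ rho :=
      Real.rpow_le_rpow (by positivity) (by linarith) hrho
    linarith
  have hu0 : ∀ p b, 0 ≤ u p b := by
    intro p b
    simp only [hu]
    apply div_nonneg _ (by positivity)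
    exact mul_nonneg (by linarith [hhh p]) (hdiff b)
  have hP : ∀ p ∈ PP J j N k, p.Prime := by
    intro p hp
    unfold PP at hp
    exact (mem_filter.mp hp).2.1
  have h1 := heul (PP J j N k) N u hP hu0
  have h2 : ∑ d ∈ (Icc 1 N).filter (fun d => d.primeFactors ⊆ PP J j N k),
      GG d * (∏ p ∈ d.primeFactors, hh θ J p) / d
      = ∑ d ∈ (Icc 1 N).filter (fun d => d.primeFactors ⊆ PP J j N k),
      ∏ p ∈ d.primeFactors, u p (d.factorization p) := by
    refine sum_congr rfl fun d hd => ?_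
    have hd1 : 1 ≤ d := (mem_Icc.mp (mem_filter.mp hd).1).1
    have hd0 : d ≠ 0 := by omega
    simp only [hu]
    rw [prod_div_distrib, prod_mul_distrib]
    have h3 : ∏ p ∈ d.primeFactors, ((p : ℝ)) ^ (d.factorization p) = (d : ℝ) := by
      have h4 : ∏ p ∈ d.primeFactors, p ^ (d.factorization p) = d := by
        have := Nat.prod_factorization_pow_eq_self hd0
        rwa [Nat.prod_factorization_eq_prod_primeFactors] at this
      have h5 : ((∏ p ∈ d.primeFactors, p ^ (d.factorization p) : ℕ) : ℝ) = (d : ℝ) := by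
        rw [h4]
      rw [← h5]
      push_cast
      rfl
    rw [h3]
    unfold GG
    rw [mul_comm (∏ p ∈ d.primeFactors, hh θ J p)]
  rw [h2]
  refine h1.trans (le_trans ?_ (hC θ a J j N k hθ0 hθ1 ha hJ hj hN hk))
  apply prod_le_prod
  · intro p _
    have : 0 ≤ ∑ b ∈ Icc 1 N, u p b := sum_nonneg fun b _ => hu0 p b
    linarith
  · intro p hp
    have h6 := hloc p N (hP p hp)
    have h7 : ∑ b ∈ Icc 1 N, u p b = hh θ J p * ∑ b ∈ Icc 1 N,
        (((b : ℝ) + 1) ^ rho - (b : ℝ) ^ rho) / (p : ℝ) ^ b := by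
      rw [mul_sum]
      refine sum_congr rfl fun b _ => ?_
      simp only [hu]
      rw [mul_div_assoc]
    rw [h7]
    have h8 := mul_le_mul_of_nonneg_left h6 (by linarith [hhh p] : 0 ≤ hh θ J p)
    linarith

end Pool.Agent.TBP.H86
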