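import Pool.Agent.TBP.StmtsA

set_option autoImplicit false

/-! # TBP, row SVE (the sieve for the set `SS`). -/

namespace Pool.Agent.TBP.H86

open Finset
open Pool.Agent.Common_Sieve Pool.Agent.Helper46_MNO

theorem lw_anti {J i j : ℕ} (h : i ≤ j) : lw J j ≤ lw J i := by
  unfold lw
  exact Nat.pow_le_pow_right (by norm_num)
    (Nat.mul_le_mul_left J (Nat.pow_le_pow_right (by norm_num) (by omega)))

theorem two_pow_le_lw (J j : ℕ) : 2 ^ J ≤ lw J j := by
  unfold lw
  apply Nat.pow_le_pow_right (by norm_num)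
  exact Nat.le_mul_of_pos_right J (by positivity)

theorem one_le_lw (J j : ℕ) : 1 ≤ lw J j := by
  unfold lw
  exact Nat.one_le_pow _ _ (by norm_num)

theorem pb_prime {J j p : ℕ} (h : p ∈ pb J j) : p.Prime := (mem_filter.mp h).2

theorem pb_le {J j p : ℕ} (h : p ∈ pb J j) : p ≤ lw J j := (mem_Ioc.mp (mem_filter.mp h).1).2

theorem pb_gt {J j p : ℕ} (h : p ∈ pb J j) : 2 ^ J < p :=
  lt_of_le_of_lt (two_pow_le_lw J (j + 1)) (mem_Ioc.mp (mem_filter.mp h).1).1

theorem pb_empty {J j : ℕ} (h : J ≤ j) : pb J j = ∅ := by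
  unfold pb
  have : lw J (j + 1) = lw J j := by
    unfold lw
    have h1 : J - (j + 1) = 0 := by omega
    have h2 : J - j = 0 := by omega
    rw [h1, h2]
  rw [this, Ioc_self, filter_empty]

theorem pb_disj {J i j : ℕ} (h : i ≠ j) : Disjoint (pb J i) (pb J j) := by
  have key : ∀ i j : ℕ, i < j → Disjoint (pb J i) (pb J j) := by
    intro i j hij
    rw [Finset.disjoint_left]
    intro p hp hp'
    have h1 : lw J (i + 1) < p := (mem_Ioc.mp (mem_filter.mp hp).1).1
    have h2 : p ≤ lw J j := pb_le hp'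
    have h3 : lw J j ≤ lw J (i + 1) := lw_anti hij
    omega
  rcases Nat.lt_or_gt_of_ne h with h | h
  · exact key i j h
  · exact (key j i h).symm

open Classical in
/-- the number of shifts which are sieved with the prime `p` -/
noncomputable def kap (θ : ℝ) (J p : ℕ) : ℕ :=
  ∑ j ∈ (range J).filter (fun j => p ∈ pb J j), kp θ j

theorem kap_eq {θ : ℝ} {J j p : ℕ} (hj : j < J) (hp : p ∈ pb J j) : kap θ J p = kp θ j := by
  classical
  unfold kap
  have : (range J).filter (fun j => p ∈ pb J j) = {j} := by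
    ext i
    simp only [mem_filter, mem_range, mem_singleton]
    constructor
    · rintro ⟨_, h2⟩
      by_contra hne
      exact (Finset.disjoint_left.mp (pb_disj (J := J) hne)) h2 hp
    · rintro rfl
      exact ⟨hj, hp⟩
  rw [this, sum_singleton]

theorem kp_le {θ : ℝ} (h1 : θ < 1) (j : ℕ) : kp θ j ≤ 2 ^ j := by
  unfold kp
  apply Nat.floor_le_of_le
  push_cast
  rw [← Real.rpow_natCast]
  apply Real.rpow_le_rpow_of_exponent_le (by norm_num)
  have : (0 : ℝ) ≤ (j : ℝ) := by positivity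
  nlinarith

theorem kp_two {θ : ℝ} (h1 : θ < 1) {J j p : ℕ} (hj : j < J) (hp : p ∈ pb J j) :
    2 * kp θ j ≤ p := by
  have h2 := kp_le h1 j
  have h3 := pb_gt hp
  have h4 : 2 ^ (j + 1) ≤ 2 ^ J := Nat.pow_le_pow_right (by norm_num) hj
  rw [pow_succ] at h4
  omega

theorem not_dvd_WW {J j p : ℕ} (hp : p ∈ pb J j) : ¬ (p : ℤ) ∣ (WW J : ℤ) := by
  intro h
  have h1 : p ∣ WW J := by exact_mod_cast h
  unfold WW at h1
  have h2 : p ∣ primorial (2 ^ J) := (pb_prime hp).dvd_of_dvd_pow h1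
  unfold primorial at h2
  rw [(pb_prime hp).prime.dvd_finsetProd_iff] at h2
  obtain ⟨q, hq, hpq⟩ := h2
  have hq' := mem_filter.mp hq
  have h3 : q < 2 ^ J + 1 := by
    have := hq'.1
    simp only [mem_range] at this
    exact this
  have h4 : p ≤ q := Nat.le_of_dvd hq'.2.pos hpq
  have h5 := pb_gt hp
  omega

theorem sum_eps (R : ℕ) : ∑ r ∈ range R, Real.exp (-((r : ℝ) + 3)) ≤ 1 / 4 := by
  have h1 : ∀ r : ℕ, Real.exp (-((r : ℝ) + 3)) ≤ (1 / 2 : ℝ) ^ (r + 3) := by
    intro r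
    have h2 : Real.exp (-((r : ℝ) + 3)) = (Real.exp (-1)) ^ (r + 3) := by
      rw [← Real.exp_nat_mul]
      congr 1
      push_cast
      ring
    rw [h2]
    apply pow_le_pow_left₀ (Real.exp_pos _).le
    rw [Real.exp_neg]
    have h3 : (2 : ℝ) ≤ Real.exp 1 := by
      have := Real.add_one_le_exp (1 : ℝ)
      linarith
    rw [one_div]
    exact inv_anti₀ (by norm_num) h3
  have h2 : ∀ R : ℕ, ∑ r ∈ range R, (1 / 2 : ℝ) ^ (r + 3) = 1 / 4 - (1 / 2) ^ (R + 2) := by
    intro R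
    induction R with
    | zero => norm_num
    | succ R ih =>
      rw [sum_range_succ, ih]
      ring
  calc ∑ r ∈ range R, Real.exp (-((r : ℝ) + 3)) ≤ ∑ r ∈ range R, (1 / 2 : ℝ) ^ (r + 3) :=
        sum_le_sum fun r _ => h1 r
    _ = 1 / 4 - (1 / 2) ^ (R + 2) := h2 R
    _ ≤ 1 / 4 := by
        have : (0 : ℝ) < (1 / 2) ^ (R + 2) := by positivity
        linarith

/-- the sieve condition -/
def Pk (θ : ℝ) (J : ℕ) (A B σ : ℤ) (p : ℕ) (n : ℤ) : Prop :=
  ∃ k ∈ Icc 1 (kap θ J p), (p : ℤ) ∣ A * n + B + σ * k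

open Classical in
theorem gen (hbha : BhaStmt) (hcnt : CntStmt) (hpar : ParStmt) (hpbm : PbmStmt) (θ : ℝ)
    (h0 : 0 < θ) (h1 : θ < 1) : ∃ K₀ : ℕ, ∀ (J : ℕ) (A B σ : ℤ) (blk : ℕ → Finset ℕ),
    (σ = 1 ∨ σ = -1) → (∀ r, blk r ⊆ pb J r) → (∀ r, ∀ p ∈ blk r, ¬ (p : ℤ) ∣ A) →
    ∀ (X : ℤ) (Y : ℕ),
      (Y : ℝ) * (∏ r ∈ range J, ∏ p ∈ blk r, (1 - (kp θ r : ℝ) / p)) / 2
        - (J + 1) * (((lw J 0 : ℕ) : ℝ) ^ K₀) ^ 2
      ≤ (((Ioc X (X + Y)).filter (fun n => ∀ r ∈ range J, ∀ p ∈ blk r,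
          ¬ Pk θ J A B σ p n)).card : ℝ) ∧
      (((Ioc X (X + Y)).filter (fun n => ∀ r ∈ range J, ∀ p ∈ blk r,
          ¬ Pk θ J A B σ p n)).card : ℝ)
      ≤ 2 * (Y : ℝ) * (∏ r ∈ range J, ∏ p ∈ blk r, (1 - (kp θ r : ℝ) / p))
        + (((lw J 0 : ℕ) : ℝ) ^ K₀) ^ 2 := by
  obtain ⟨M, hM0, hM⟩ := hpbm
  obtain ⟨c, K₀, hc1, hc2⟩ := hpar θ M h0 h1 hM0
  refine ⟨K₀, ?_⟩
  intro J A B σ blk hσ hblk hA X Y
  have hlt : ∀ r, ∀ p ∈ blk r, r < J := by
    intro r p hp
    by_contra hcon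
    have := hblk r hp
    rw [pb_empty (not_lt.mp hcon)] at this
    exact absurd this (notMem_empty p)
  have hkap : ∀ r, ∀ p ∈ blk r, kap θ J p = kp θ r := fun r p hp =>
    kap_eq (hlt r p hp) (hblk r hp)
  have key := hbha J blk (fun p n => Pk θ J A B σ p n) (kap θ J) (fun r => lw J r)
    (fun r => 2 * (c * kp θ r + r + 2)) (fun r => M * (kp θ r : ℝ))
    (fun r => Real.exp (-((r : ℝ) + 3)))
    (by
      intro p n
      unfold Pk
      constructor
      · rintro ⟨k, hk, hd⟩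
        refine ⟨k, hk, ?_⟩
        have : A * n + B + σ * k = (A * (n + p) + B + σ * k) - A * p := by ring
        rw [this]
        exact dvd_sub hd (dvd_mul_left _ _)
      · rintro ⟨k, hk, hd⟩
        refine ⟨k, hk, ?_⟩
        have : A * (n + p) + B + σ * k = (A * n + B + σ * k) + A * p := by ring
        rw [this]
        exact dvd_add hd (dvd_mul_left _ _))
    (by
      intro i j hij
      exact disjoint_of_subset_left (hblk i) (disjoint_of_subset_right (hblk j) (pb_disj hij)))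
    (by
      intro r p hp
      have hp' := hblk r hp
      have hpp := pb_prime hp'
      have h2 := kp_two h1 (hlt r p hp) hp'
      refine ⟨hpp, pb_le hp', ?_, ?_⟩
      · rw [hkap r p hp]
        exact h2
      · have h3 := hcnt p (kap θ J p) A B σ hpp (hA r p hp) hσ (by
          rw [hkap r p hp]
          have := hpp.pos
          omega)
        unfold cnt Pk
        rw [← h3]
        congr 1
        ext s
        simp only [mem_filter])
    (fun r => one_le_lw J r)
    (fun r => even_two_mul _)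
    (fun r => by positivity)
    (fun r => (Real.exp_pos _).le)
    (by
      intro r
      by_cases hr : r < J
      · have e1 : ∑ p ∈ blk r, (kap θ J p : ℝ) / p = (kp θ r : ℝ) * ∑ p ∈ blk r, (1 : ℝ) / p := by
          rw [mul_sum]
          refine sum_congr rfl fun p hp => ?_
          rw [hkap r p hp]
          ring
        rw [e1]
        have e2 : ∑ p ∈ blk r, (1 : ℝ) / p ≤ ∑ p ∈ pb J r, (1 : ℝ) / p :=
          sum_le_sum_of_subset_of_nonneg (hblk r) fun p _ _ => by positivity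
        have e3 := hM J r hr
        have e4 : (0 : ℝ) ≤ (kp θ r : ℝ) := by positivity
        calc (kp θ r : ℝ) * ∑ p ∈ blk r, (1 : ℝ) / p ≤ (kp θ r : ℝ) * M :=
              mul_le_mul_of_nonneg_left (e2.trans e3) e4
          _ = M * (kp θ r : ℝ) := mul_comm _ _
      · have : blk r = ∅ := by
          rw [← subset_empty, ← pb_empty (not_lt.mp hr)]
          exact hblk r
        rw [this, sum_empty]
        positivity)
    (by
      intro r
      exact hc1 r)
    (sum_eps J) X Y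
  have hprod : ∏ r ∈ range J, ∏ p ∈ blk r, (1 - (kap θ J p : ℝ) / p)
      = ∏ r ∈ range J, ∏ p ∈ blk r, (1 - (kp θ r : ℝ) / p) := by
    refine prod_congr rfl fun r _ => prod_congr rfl fun p hp => ?_
    rw [hkap r p hp]
  rw [hprod] at key
  have hZ : (((∏ r ∈ range J, (lw J r) ^ (2 * (c * kp θ r + r + 2) + 1) : ℕ) : ℝ)) ^ 2
      ≤ (((lw J 0 : ℕ) : ℝ) ^ K₀) ^ 2 := by
    apply pow_le_pow_left₀ (by positivity)
    exact_mod_cast hc2 J
  constructor
  · refine le_trans ?_ key.1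
    have hJ : (0 : ℝ) ≤ (J : ℝ) + 1 := by positivity
    have := mul_le_mul_of_nonneg_left hZ hJ
    linarith
  · exact key.2.trans (by linarith)

open Classical in
theorem sve (hbha : BhaStmt) (hcnt : CntStmt) (hpar : ParStmt) (hpbm : PbmStmt) : SveStmt := by
  intro θ h0 h1
  obtain ⟨K₀, hK⟩ := gen hbha hcnt hpar hpbm θ h0 h1
  refine ⟨2 * K₀ + 1, ?_⟩
  intro J T σ hσ
  have hlw1 : (1 : ℝ) ≤ ((lw J 0 : ℕ) : ℝ) := by exact_mod_cast one_le_lw J 0
  constructor
  · -- the lower bound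
    have key := (hK J (WW J : ℤ) 0 σ (fun r => pb J r) hσ (fun r => Subset.refl _)
      (fun r p hp => not_dvd_WW hp) 0 T).1
    have hcard : ((Ioc (0 : ℤ) (0 + T)).filter (fun n => ∀ r ∈ range J, ∀ p ∈ pb J r,
        ¬ Pk θ J (WW J : ℤ) 0 σ p n)).card ≤ (SS θ J σ T).card := by
      apply card_le_card_of_injOn (fun n : ℤ => n.toNat)
      · intro n hn
        rw [mem_coe, mem_filter] at hn
        obtain ⟨hn1, hn2⟩ := hn
        rw [mem_Ioc] at hn1
        have hn3 : ((n.toNat : ℕ) : ℤ) = n := Int.toNat_of_nonneg hn1.1.le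
        rw [mem_coe]
        unfold SS
        rw [mem_filter, mem_Icc]
        have hn4 : 1 ≤ n.toNat ∧ n.toNat ≤ T := by omega
        refine ⟨hn4, ?_⟩
        intro j hj p hp k hk hd
        apply hn2 j hj p hp
        refine ⟨k, ?_, ?_⟩
        · rw [kap_eq (mem_range.mp hj) hp]
          exact hk
        · rw [hn3] at hd
          rw [add_zero]
          exact hd
      · intro n hn m hm hnm
        rw [mem_coe, mem_filter, mem_Ioc] at hn hm
        have h3 : ((n.toNat : ℕ) : ℤ) = n := Int.toNat_of_nonneg hn.1.1.le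
        have h4 : ((m.toNat : ℕ) : ℤ) = m := Int.toNat_of_nonneg hm.1.1.le
        simp only at hnm
        rw [← h3, ← h4, hnm]
    have hcard' : (((Ioc (0 : ℤ) (0 + T)).filter (fun n => ∀ r ∈ range J, ∀ p ∈ pb J r,
        ¬ Pk θ J (WW J : ℤ) 0 σ p n)).card : ℝ) ≤ ((SS θ J σ T).card : ℝ) := by
      exact_mod_cast hcard
    have hJ : ((J : ℝ) + 1) ≤ ((lw J 0 : ℕ) : ℝ) := by
      have : J + 1 ≤ lw J 0 := by
        have h5 : J + 1 ≤ 2 ^ J := Nat.lt_two_pow_self
        exact h5.trans (two_pow_le_lw J 0)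
      exact_mod_cast this
    have herr : ((J : ℝ) + 1) * (((lw J 0 : ℕ) : ℝ) ^ K₀) ^ 2 ≤ ((lw J 0 : ℕ) : ℝ) ^ (2 * K₀ + 1) := by
      have e : ((lw J 0 : ℕ) : ℝ) ^ (2 * K₀ + 1)
          = ((lw J 0 : ℕ) : ℝ) * (((lw J 0 : ℕ) : ℝ) ^ K₀) ^ 2 := by ring
      rw [e]
      exact mul_le_mul_of_nonneg_right hJ (by positivity)
    unfold VV
    linarith
  · -- the upper bound
    intro d r hd
    have hd0 : (0 : ℤ) < (d : ℤ) := by exact_mod_cast hd
    set r0 : ℤ := r % d with hr0
    have hr0n : 0 ≤ r0 := Int.emod_nonneg r hd0.ne'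
    have hr0l : r0 < d := Int.emod_lt_of_pos r hd0
    have hrr : (d : ℤ) ∣ r - r0 := by
      rw [hr0]
      exact Int.dvd_self_sub_emod
    set Y : ℕ := T / d + 1 with hY
    have key := (hK J ((WW J : ℤ) * d) ((WW J : ℤ) * r0) σ
      (fun r => (pb J r).filter (fun p => ¬ p ∣ d)) hσ (fun r => filter_subset _ _) (by
        intro i p hp
        rw [mem_filter] at hp
        intro hdv
        have hpp := Nat.prime_iff_prime_int.mp (pb_prime hp.1)
        rcases hpp.dvd_or_dvd hdv with h | h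
        · exact not_dvd_WW hp.1 h
        · exact hp.2 (by exact_mod_cast h)) (-1) Y).2
    have hcard : ((SS θ J σ T).filter (fun t : ℕ => (d : ℤ) ∣ (t : ℤ) - r)).card
        ≤ ((Ioc (-1 : ℤ) (-1 + Y)).filter (fun n => ∀ i ∈ range J,
          ∀ p ∈ (pb J i).filter (fun p => ¬ p ∣ d),
          ¬ Pk θ J ((WW J : ℤ) * d) ((WW J : ℤ) * r0) σ p n)).card := by
      have hst : ∀ t : ℕ, (d : ℤ) ∣ (t : ℤ) - r → (d : ℤ) * (((t : ℤ) - r0) / d) = (t : ℤ) - r0 := by
        intro t ht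
        apply Int.mul_ediv_cancel'
        have : (t : ℤ) - r0 = ((t : ℤ) - r) + (r - r0) := by ring
        rw [this]
        exact dvd_add ht hrr
      apply card_le_card_of_injOn (fun t : ℕ => ((t : ℤ) - r0) / d)
      · intro t ht
        rw [mem_coe, mem_filter] at ht
        obtain ⟨ht1, ht2⟩ := ht
        have hS := ht1
        unfold SS at hS
        rw [mem_filter, mem_Icc] at hS
        obtain ⟨⟨ht3, ht4⟩, ht5⟩ := hS
        have hs := hst t ht2
        rw [mem_coe, mem_filter, mem_Ioc]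
        refine ⟨⟨?_, ?_⟩, ?_⟩
        · have : (-1 : ℤ) * d < (t : ℤ) - r0 := by
            have : (1 : ℤ) ≤ (t : ℤ) := by exact_mod_cast ht3
            linarith
          by_contra hcon
          have hle : ((t : ℤ) - r0) / d ≤ -1 := not_lt.mp hcon
          have := mul_le_mul_of_nonneg_left hle hd0.le
          rw [hs] at this
          linarith
        · have h6 : ((t : ℤ) - r0) / d ≤ (T : ℤ) / d :=
            Int.ediv_le_ediv hd0 (by
              have : (t : ℤ) ≤ (T : ℤ) := by exact_mod_cast ht4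
              linarith)
          rw [hY]
          push_cast
          linarith
        · intro i hi p hp
          rw [mem_filter] at hp
          rintro ⟨k, hk, hdv⟩
          rw [kap_eq (mem_range.mp hi) hp.1] at hk
          apply ht5 i hi p hp.1 k hk
          have e : (WW J : ℤ) * d * (((t : ℤ) - r0) / d) + (WW J : ℤ) * r0 + σ * k
              = (WW J : ℤ) * t + σ * k := by
            rw [mul_assoc, hs]
            ring
          rw [e] at hdv
          exact hdv
      · intro t ht t' ht' htt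
        rw [mem_coe, mem_filter] at ht ht'
        have e1 := hst t ht.2
        have e2 := hst t' ht'.2
        simp only at htt
        rw [htt] at e1
        have : (t : ℤ) - r0 = (t' : ℤ) - r0 := e1.symm.trans e2
        have h7 : (t : ℤ) = (t' : ℤ) := by linarith
        exact_mod_cast h7
    have hcard' : ((((SS θ J σ T)).filter (fun t : ℕ => (d : ℤ) ∣ (t : ℤ) - r)).card : ℝ)
        ≤ (((Ioc (-1 : ℤ) (-1 + Y)).filter (fun n => ∀ i ∈ range J,
          ∀ p ∈ (pb J i).filter (fun p => ¬ p ∣ d),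
          ¬ Pk θ J ((WW J : ℤ) * d) ((WW J : ℤ) * r0) σ p n)).card : ℝ) := by
      exact_mod_cast hcard
    have hVD : 0 ≤ VD θ J d := by
      unfold VD
      refine prod_nonneg fun j hj => prod_nonneg fun p hp => ?_
      rw [mem_filter] at hp
      have h8 := kp_two h1 (mem_range.mp hj) hp.1
      have hp0 : (0 : ℝ) < (p : ℝ) := by exact_mod_cast (pb_prime hp.1).pos
      rw [sub_nonneg, div_le_one hp0]
      have : kp θ j ≤ p := by omega
      exact_mod_cast this
    have hYle : ((Y : ℕ) : ℝ) ≤ (T : ℝ) / d + 1 := by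
      rw [hY]
      push_cast
      have := Nat.cast_div_le (α := ℝ) (m := T) (n := d)
      linarith
    have herr : (((lw J 0 : ℕ) : ℝ) ^ K₀) ^ 2 ≤ ((lw J 0 : ℕ) : ℝ) ^ (2 * K₀ + 1) := by
      rw [← pow_mul]
      exact pow_le_pow_right₀ hlw1 (by omega)
    have hfin : 2 * (Y : ℝ) * VD θ J d ≤ 2 * ((T : ℝ) / d + 1) * VD θ J d :=
      mul_le_mul_of_nonneg_right (by linarith) hVD
    have key' : (((Ioc (-1 : ℤ) (-1 + Y)).filter (fun n => ∀ i ∈ range J,
          ∀ p ∈ (pb J i).filter (fun p => ¬ p ∣ d),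
          ¬ Pk θ J ((WW J : ℤ) * d) ((WW J : ℤ) * r0) σ p n)).card : ℝ)
        ≤ 2 * (Y : ℝ) * VD θ J d + (((lw J 0 : ℕ) : ℝ) ^ K₀) ^ 2 := key
    linarith

end Pool.Agent.TBP.H86
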