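import Pool.Agent.TBP.StmtsC

/-!
Squad TBP, row UN2: the count of the bad shifts.
-/

set_option autoImplicit false

namespace Pool.Agent.TBP.H86

open Finset
open Pool.Agent.Common_Sieve Pool.Agent.Helper46_MNO

lemma un2_rho_le : rho ≤ 2 := by
  unfold rho
  rw [div_le_iff₀ (Real.log_pos (by norm_num))]
  have := Real.log_two_gt_d9
  linarith

theorem un2 (hMO2 : Mo2Stmt) (hCHO : ChoStmt) (hSER : SerStmt) (hSTA : StaStmt) : Un2Stmt := by
  classical
  intro B η hB1 hB2 hη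
  obtain ⟨L, hLd⟩ : ∃ L : ℝ, L = Real.log 2 := ⟨_, rfl⟩
  have hL : 0 < L := by rw [hLd]; exact Real.log_pos (by norm_num)
  have hρL : rho = 1 / L := by rw [hLd]; rfl
  rw [← hLd] at hB1 hB2 hη
  obtain ⟨x, hx⟩ : ∃ x : ℝ, x = B / L := ⟨_, rfl⟩
  rw [← hx] at hη
  have hxL : B = x * L := by rw [hx]; field_simp
  have hx1 : 1 < x := by rw [hx, lt_div_iff₀ hL]; linarith
  have hx0 : 0 < x := by linarith
  have hxe : x ≤ Real.exp 1 := by rw [hx, div_le_iff₀ hL]; exact hB2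
  have hlx0 : 0 < Real.log x := Real.log_pos hx1
  have hlx1 : Real.log x ≤ 1 := by
    rw [Real.log_le_iff_le_exp hx0]; exact hxe
  obtain ⟨r, hr⟩ : ∃ r : ℝ, r = Real.log x / L := ⟨_, rfl⟩
  have hr0 : 0 < r := by rw [hr]; positivity
  have hrρ : r ≤ rho := by
    rw [hr, hρL]
    exact div_le_div_of_nonneg_right hlx1 hL.le
  have h2r : (2 : ℝ) ^ r = x := by
    rw [Real.rpow_def_of_pos (by norm_num), ← hLd, hr, mul_div_cancel₀ _ hL.ne', Real.exp_log hx0]
  obtain ⟨h, hh⟩ : ∃ h : ℝ, h = x * Real.log x - x + 1 := ⟨_, rfl⟩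
  rw [← hh] at hη
  have hh1 : h ≤ 1 := by
    have : x * Real.log x ≤ x * 1 := mul_le_mul_of_nonneg_left hlx1 hx0.le
    rw [hh]
    linarith
  have hBr : B * r = h + x - 1 := by
    rw [hxL, hr, hh]
    field_simp
    ring
  obtain ⟨ε, hε⟩ : ∃ ε : ℝ, ε = (η - (1 - h)) / 4 := ⟨_, rfl⟩
  have hε0 : 0 < ε := by rw [hε]; linarith
  have hηε : η = 1 - h + 4 * ε := by rw [hε]; ring
  obtain ⟨s, hs⟩ : ∃ s : ℝ, s = 1 - h + 3 * ε := ⟨_, rfl⟩
  have hs0 : 0 ≤ s := by rw [hs]; linarith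
  have hsη : s ≤ η := by rw [hs, hηε]; linarith
  obtain ⟨θ, hθ⟩ : ∃ θ : ℝ, θ = (x - 1) / (x - 1 + ε) := ⟨_, rfl⟩
  have hθ0 : 0 < θ := by rw [hθ]; exact div_pos (by linarith) (by linarith)
  have hθ1 : θ < 1 := by
    rw [hθ, div_lt_one (by linarith)]
    linarith
  have hexp : (1 / θ) * (x - 1) = x - 1 + ε := by
    rw [hθ, one_div_div]
    have : x - 1 ≠ 0 := by linarith
    field_simp
  obtain ⟨a, J0, C, ha, hC, hM⟩ := hMO2 r θ hr0 hrρ hθ0 hθ1
  obtain ⟨C', hC', hS⟩ := hSER (2 * ε) (by positivity)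
  refine ⟨a, J0, 16 * C * C', ha, by positivity, ?_⟩
  intro J hJ
  obtain ⟨h1, h2, hpos, hcard, hmom⟩ := hM J hJ
  refine ⟨h1, h2, ?_⟩
  obtain ⟨TV, hTV⟩ : ∃ TV : ℝ, TV = (TT a J : ℝ) * VV θ J := ⟨_, rfl⟩
  rw [← hTV] at hpos hcard hmom
  rw [h2r] at hmom
  -- the weights
  set ind : ℕ → ℕ → ℝ := fun k t =>
    if (k : ℝ) ^ B < ((lf J (-1) k t).divisors.card : ℝ) then (k : ℝ) ^ (-s) else 0 with hind
  have hind0 : ∀ k t : ℕ, 0 ≤ ind k t := by
    intro k t
    rw [hind]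
    dsimp only
    split_ifs
    · positivity
    · exact le_refl _
  -- the bound for one `k`
  have hkey : ∀ k ∈ Icc 1 (lw J 0), ∑ t ∈ SS θ J (-1) (TT a J), ind k t ≤
      (4 * C * TV) * ((k.divisors.card : ℝ) ^ 6 * (k : ℝ) ^ (-(1 + 2 * ε))) := by
    intro k hk
    rw [mem_Icc] at hk
    have hk0 : (0 : ℝ) < k := by exact_mod_cast hk.1
    have hτ1 : (1 : ℝ) ≤ (k.divisors.card : ℝ) := by
      have : 0 < k.divisors.card := Finset.card_pos.mpr ⟨1, Nat.one_mem_divisors.mpr (by omega)⟩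
      exact_mod_cast this
    obtain ⟨τ, hτ⟩ : ∃ τ : ℝ, τ = (k.divisors.card : ℝ) := ⟨_, rfl⟩
    rw [← hτ] at hτ1
    have hτ0 : 0 < τ := by linarith
    obtain ⟨j, hj1, hj2, hj3⟩ := hCHO θ J k hθ0 hk.1
    have hm := hmom k j hk.1 hk.2 hj1 hj2
    rw [← hτ] at hm ⊢
    have e1 : ((2 : ℝ) ^ j) ^ (x - 1) ≤ 4 * (k : ℝ) ^ (x - 1 + ε) := by
      calc ((2 : ℝ) ^ j) ^ (x - 1) ≤ (2 * (k : ℝ) ^ (1 / θ)) ^ (x - 1) :=
            Real.rpow_le_rpow (by positivity) hj3 (by linarith)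
        _ = 2 ^ (x - 1) * (k : ℝ) ^ (x - 1 + ε) := by
            rw [Real.mul_rpow (by norm_num) (by positivity), ← Real.rpow_mul hk0.le, hexp]
        _ ≤ 4 * (k : ℝ) ^ (x - 1 + ε) := by
            apply mul_le_mul_of_nonneg_right _ (by positivity)
            have he3 := Real.exp_one_lt_d9
            calc (2 : ℝ) ^ (x - 1) ≤ 2 ^ (2 : ℝ) :=
                  Real.rpow_le_rpow_of_exponent_le (by norm_num) (by linarith)
              _ = 4 := by norm_num
    have e2 : (τ / (k : ℝ) ^ B) ^ r ≤ τ ^ 2 / (k : ℝ) ^ (B * r) := by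
      rw [Real.div_rpow hτ0.le (by positivity), ← Real.rpow_mul hk0.le]
      apply div_le_div_of_nonneg_right _ (by positivity)
      calc τ ^ r ≤ τ ^ (2 : ℝ) :=
            Real.rpow_le_rpow_of_exponent_le hτ1 (le_trans hrρ un2_rho_le)
        _ = τ ^ 2 := by norm_num
    have e3 : ∑ t ∈ SS θ J (-1) (TT a J), tk r (lf J (-1) k t / Nat.gcd (WW J) k) ≤
        C * TV * (4 * (k : ℝ) ^ (x - 1 + ε)) * τ ^ 4 := by
      refine le_trans hm ?_
      apply mul_le_mul_of_nonneg_right _ (by positivity)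
      exact mul_le_mul_of_nonneg_left e1 (by positivity)
    have e5 : ∀ t ∈ SS θ J (-1) (TT a J), ind k t ≤ (k : ℝ) ^ (-s) * ((τ / (k : ℝ) ^ B) ^ r *
        tk r (lf J (-1) k t / Nat.gcd (WW J) k)) := by
      intro t _
      rw [hind]
      dsimp only
      split_ifs with hbad
      · have hst := (hSTA J k t (-1) hk.1).2
        have hst' : ((lf J (-1) k t).divisors.card : ℝ) ≤
            (k.divisors.card : ℝ) * ((lf J (-1) k t / Nat.gcd (WW J) k).divisors.card : ℝ) := by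
          exact_mod_cast hst
        rw [← hτ] at hst'
        have hden : 0 < (k : ℝ) ^ B := by positivity
        have f1 : 1 ≤ τ / (k : ℝ) ^ B *
            ((lf J (-1) k t / Nat.gcd (WW J) k).divisors.card : ℝ) := by
          rw [div_mul_eq_mul_div, le_div_iff₀ hden, one_mul]
          linarith
        have f2 : 1 ≤ (τ / (k : ℝ) ^ B) ^ r * tk r (lf J (-1) k t / Nat.gcd (WW J) k) := by
          unfold tk
          rw [← Real.mul_rpow (by positivity) (Nat.cast_nonneg _)]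
          exact Real.one_le_rpow f1 hr0.le
        exact le_mul_of_one_le_right (by positivity) f2
      · exact mul_nonneg (by positivity) (mul_nonneg (by positivity) (tk_nonneg _ _))
    calc ∑ t ∈ SS θ J (-1) (TT a J), ind k t
        ≤ ∑ t ∈ SS θ J (-1) (TT a J), (k : ℝ) ^ (-s) * ((τ / (k : ℝ) ^ B) ^ r *
            tk r (lf J (-1) k t / Nat.gcd (WW J) k)) := Finset.sum_le_sum e5
      _ = (k : ℝ) ^ (-s) * ((τ / (k : ℝ) ^ B) ^ r *
            ∑ t ∈ SS θ J (-1) (TT a J), tk r (lf J (-1) k t / Nat.gcd (WW J) k)) := by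
          rw [Finset.mul_sum, Finset.mul_sum]
      _ ≤ (k : ℝ) ^ (-s) * ((τ ^ 2 / (k : ℝ) ^ (B * r)) *
            (C * TV * (4 * (k : ℝ) ^ (x - 1 + ε)) * τ ^ 4)) := by
          apply mul_le_mul_of_nonneg_left _ (by positivity)
          apply mul_le_mul e2 e3 _ (by positivity)
          exact Finset.sum_nonneg fun t _ => tk_nonneg _ _
      _ = (4 * C * TV) * (τ ^ 6 * (k : ℝ) ^ (-(1 + 2 * ε))) := by
          have e6 : (k : ℝ) ^ (-(1 + 2 * ε)) =
              (k : ℝ) ^ (-s) * (k : ℝ) ^ (x - 1 + ε) / (k : ℝ) ^ (B * r) := by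
            rw [← Real.rpow_add hk0, ← Real.rpow_sub hk0, hBr, hs]
            congr 1
            ring
          rw [e6]
          have h5 : (k : ℝ) ^ (B * r) ≠ 0 := (Real.rpow_pos_of_pos hk0 _).ne'
          field_simp
  -- the sum of the weights
  have hsum : ∑ t ∈ SS θ J (-1) (TT a J), ∑ k ∈ Icc 1 (lw J 0), ind k t ≤ 4 * C * TV * C' := by
    rw [Finset.sum_comm]
    calc ∑ k ∈ Icc 1 (lw J 0), ∑ t ∈ SS θ J (-1) (TT a J), ind k t
        ≤ ∑ k ∈ Icc 1 (lw J 0),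
          (4 * C * TV) * ((k.divisors.card : ℝ) ^ 6 * (k : ℝ) ^ (-(1 + 2 * ε))) :=
          Finset.sum_le_sum hkey
      _ = (4 * C * TV) * ∑ k ∈ Icc 1 (lw J 0),
          (k.divisors.card : ℝ) ^ 6 * (k : ℝ) ^ (-(1 + 2 * ε)) := by rw [Finset.mul_sum]
      _ ≤ (4 * C * TV) * C' := mul_le_mul_of_nonneg_left (hS _) (by positivity)
  have hne : (SS θ J (-1) (TT a J)).Nonempty := by
    rw [← Finset.card_pos]
    have : (0 : ℝ) < ((SS θ J (-1) (TT a J)).card : ℝ) := by linarith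
    exact_mod_cast this
  obtain ⟨t, ht, hwt⟩ := Finset.exists_le_of_sum_le (s := SS θ J (-1) (TT a J))
    (f := fun t => ∑ k ∈ Icc 1 (lw J 0), ind k t) (g := fun _ => 16 * C * C') hne (by
      rw [Finset.sum_const, nsmul_eq_mul]
      refine le_trans hsum ?_
      have : TV / 4 * (16 * C * C') ≤ ((SS θ J (-1) (TT a J)).card : ℝ) * (16 * C * C') :=
        mul_le_mul_of_nonneg_right hcard (by positivity)
      calc 4 * C * TV * C' = TV / 4 * (16 * C * C') := by ring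
        _ ≤ _ := this)
  have ht1 : t ∈ Icc 1 (TT a J) := by
    unfold SS at ht
    exact (mem_filter.mp ht).1
  rw [mem_Icc] at ht1
  refine ⟨t, ht1.1, ht1.2, ?_⟩
  intro K hK1 hK2
  have hK0 : (0 : ℝ) < K := by exact_mod_cast hK1
  have hK1' : (1 : ℝ) ≤ K := by exact_mod_cast hK1
  have hcnt : (((Icc 1 K).filter (fun k : ℕ => (k : ℝ) ^ B <
      ((lf J (-1) k t).divisors.card : ℝ))).card : ℝ) ≤ ∑ k ∈ Icc 1 K, (K : ℝ) ^ s * ind k t := by
    rw [Finset.cast_card, Finset.sum_filter]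
    apply Finset.sum_le_sum
    intro k hk
    rw [mem_Icc] at hk
    have hk0 : (0 : ℝ) < k := by exact_mod_cast hk.1
    rw [hind]
    dsimp only
    split_ifs with hbad
    · have h5 : (k : ℝ) ^ s ≤ (K : ℝ) ^ s :=
        Real.rpow_le_rpow hk0.le (by exact_mod_cast hk.2) hs0
      calc (1 : ℝ) = (k : ℝ) ^ s * (k : ℝ) ^ (-s) := by
            rw [← Real.rpow_add hk0, add_neg_cancel, Real.rpow_zero]
        _ ≤ (K : ℝ) ^ s * (k : ℝ) ^ (-s) := mul_le_mul_of_nonneg_right h5 (by positivity)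
    · rw [mul_zero]
  calc (((Icc 1 K).filter (fun k : ℕ => (k : ℝ) ^ B <
      ((lf J (-1) k t).divisors.card : ℝ))).card : ℝ)
      ≤ ∑ k ∈ Icc 1 K, (K : ℝ) ^ s * ind k t := hcnt
    _ = (K : ℝ) ^ s * ∑ k ∈ Icc 1 K, ind k t := by rw [Finset.mul_sum]
    _ ≤ (K : ℝ) ^ s * ∑ k ∈ Icc 1 (lw J 0), ind k t := by
        apply mul_le_mul_of_nonneg_left _ (by positivity)
        exact Finset.sum_le_sum_of_subset_of_nonneg (Finset.Icc_subset_Icc_right hK2)
          (fun k _ _ => hind0 k t)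
    _ ≤ (K : ℝ) ^ s * (16 * C * C') := mul_le_mul_of_nonneg_left hwt (by positivity)
    _ ≤ (K : ℝ) ^ η * (16 * C * C') := by
        apply mul_le_mul_of_nonneg_right _ (by positivity)
        exact Real.rpow_le_rpow_of_exponent_le hK1' hsη
    _ = 16 * C * C' * (K : ℝ) ^ η := by ring

end Pool.Agent.TBP.H86
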